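import Mathlib
import Pool.Agent.H103R3.Equality

set_option autoImplicit false

namespace Pool.Agent.Results.MP_d0f9e0_co.AngleRigidity

/-- Angle rigidity for large equiangular systems, with the case of equality. Let `x_1, ..., x_N` be
unit vectors in `ℂ^d` whose pairwise inner products all have the same modulus `a < 1` (that is, `N`
equiangular lines, with any common angle).
* If `N > d² - d + 1`, then `a = 1/√(d+1)`, the value of a maximal equiangular tight frame.
* If `d ≥ 3`, `N = d² - d + 1` and `a ≠ 1/√(d+1)`, then `a = √(d-1)/d`, the `x_i` form a tight frame,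
  and there is an orthonormal basis `e` of `ℂ^d` which is unbiased to all the `x_i`. -/
theorem result (d N : ℕ) (x : Fin N → EuclideanSpace ℂ (Fin d)) (hx1 : ∀ i, ‖x i‖ = 1)
    (a : ℝ) (ha : a < 1) (hx2 : ∀ i j, i ≠ j → ‖inner ℂ (x i) (x j)‖ = a) :
    ((d : ℝ) ^ 2 - d + 1 < N → a = 1 / Real.sqrt ((d : ℝ) + 1)) ∧
    (3 ≤ d → (N : ℝ) = (d : ℝ) ^ 2 - d + 1 → a ≠ 1 / Real.sqrt ((d : ℝ) + 1) →
      a = Real.sqrt ((d : ℝ) - 1) / d ∧
      (∀ u : EuclideanSpace ℂ (Fin d),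
        ∑ i, ‖inner ℂ (x i) u‖ ^ 2 = ((N : ℝ) / d) * ‖u‖ ^ 2) ∧
      ∃ e : OrthonormalBasis (Fin d) ℂ (EuclideanSpace ℂ (Fin d)),
        ∀ i k, ‖inner ℂ (e k) (x i)‖ = 1 / Real.sqrt d) := by
  have hd1 : (0 : ℝ) < (d : ℝ) + 1 := by positivity
  have key : 2 ≤ N → a ≠ 1 / Real.sqrt ((d : ℝ) + 1) →
      0 ≤ a ∧ a ^ 2 < 1 ∧ a ^ 2 * ((d : ℝ) + 1) ≠ 1 := by
    intro hN2 hne
    have ha0 : 0 ≤ a := by
      rw [← hx2 ⟨0, by omega⟩ ⟨1, by omega⟩ (by simp)]
      exact norm_nonneg _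
    refine ⟨ha0, by nlinarith, fun h => hne ?_⟩
    have h1 : a ^ 2 = (1 / Real.sqrt ((d : ℝ) + 1)) ^ 2 := by
      rw [div_pow, one_pow, Real.sq_sqrt hd1.le]
      field_simp
      linarith
    exact (pow_left_inj₀ ha0 (by positivity) (two_ne_zero)).mp h1
  constructor
  · intro hN
    have hN' : d ^ 2 + 1 < N + d := by
      have h : (d : ℝ) ^ 2 + 1 < N + d := by linarith
      exact_mod_cast h
    rcases Nat.eq_zero_or_pos d with h0 | hd
    · exfalso
      subst h0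
      have h1 := hx1 ⟨0, by omega⟩
      have h2 : x ⟨0, by omega⟩ = 0 := Subsingleton.elim _ _
      rw [h2, norm_zero] at h1
      exact zero_ne_one h1
    have hN2 : 2 ≤ N := by nlinarith
    by_contra hne
    obtain ⟨-, hα, hαd⟩ := key hN2 hne
    have h := Pool.Agent.H103R3.angle_bound hd x (α := a ^ 2) hx1
      (fun i j hij => by rw [hx2 i j hij]) hα hαd
    omega
  · intro hd hN hne
    have hN' : N + d = d ^ 2 + 1 := by
      have h : (N : ℝ) + d = (d : ℝ) ^ 2 + 1 := by linarith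
      exact_mod_cast h
    have hN2 : 2 ≤ N := by nlinarith
    obtain ⟨ha0, hα, hαd⟩ := key hN2 hne
    obtain ⟨h1, h2, e, he⟩ := Pool.Agent.H103R3.equality_case hd hN' x (α := a ^ 2) hx1
      (fun i j hij => by rw [hx2 i j hij]) hα hαd
    have hd' : (3 : ℝ) ≤ d := by exact_mod_cast hd
    refine ⟨?_, h2, e, fun i k => ?_⟩
    · have h3 : a ^ 2 = (Real.sqrt ((d : ℝ) - 1) / d) ^ 2 := by
        rw [h1, div_pow, Real.sq_sqrt (by linarith)]
      exact (pow_left_inj₀ ha0 (by positivity) (two_ne_zero)).mp h3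
    · have h3 : ‖inner ℂ (e k) (x i)‖ ^ 2 = (1 / Real.sqrt d) ^ 2 := by
        rw [he i k, div_pow, one_pow, Real.sq_sqrt (by positivity)]
      exact (pow_left_inj₀ (norm_nonneg _) (by positivity) (two_ne_zero)).mp h3

end Pool.Agent.Results.MP_d0f9e0_co.AngleRigidity
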