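import Mathlib
import Pool.Agent.H103R3.Blocks

set_option autoImplicit false

namespace Pool.Agent.Results.MP_d0f9e0_co.BlockRigidity

/-- The inner product of `u` and `v` has the modulus `1/√(d+1)` of a maximal ETF in `ℂ^d`. -/
def SICAngle {d : ℕ} (u v : EuclideanSpace ℂ (Fin d)) : Prop :=
  ‖inner ℂ u v‖ = 1 / Real.sqrt ((d : ℝ) + 1)

/-- The inner product `⟨u ∧ v, a ∧ b⟩ = ⟨u,a⟩⟨v,b⟩ - ⟨v,a⟩⟨u,b⟩`. -/
noncomputable def wedge {d : ℕ} (u v a b : EuclideanSpace ℂ (Fin d)) : ℂ :=
  inner ℂ u a * inner ℂ v b - inner ℂ v a * inner ℂ u b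

/-- Rigidity of unknown angles in blocks. Let `x_1, ..., x_{d²}` be unit vectors in `ℂ^d`, coloured
by `c` so that any two vectors of different colours have inner product of modulus `1/√(d+1)`.
Nothing is assumed on the inner products of two vectors of the same colour. Then all inner products
have modulus `1/√(d+1)`, that is, `x` is a maximal ETF, in each of the following cases.
* (A) For some `ρ`, any at most `ρ` vectors from the colour classes with at least two members are
  linearly independent, and `d²` minus the number of colours is at most `2ρ - 3`. (For a single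
  class `B` with at least two members, this says `|B| ≤ 2ρ - 2`.)
* (B) The forms `(u,v,w,z) ↦ ⟨u ∧ v, x_i ∧ x_j⟩ ⟨x_i ∧ x_j, w ∧ z⟩`, for the unordered pairs
  `{i,j}` of distinct indices of the same colour, are linearly independent. -/
theorem result (d n : ℕ) (hd : 1 ≤ d) (x : Fin (d ^ 2) → EuclideanSpace ℂ (Fin d))
    (hx1 : ∀ i, ‖x i‖ = 1) (c : Fin (d ^ 2) → Fin n)
    (hx2 : ∀ i j, c i ≠ c j → SICAngle (x i) (x j))
    (h : (∃ ρ : ℕ, (∀ S : Finset (Fin (d ^ 2)), S.card ≤ ρ → (∀ i ∈ S, ∃ j, j ≠ i ∧ c j = c i) →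
          LinearIndependent ℂ (fun i : S => x i)) ∧
        d ^ 2 + 3 ≤ (Finset.univ.image c).card + 2 * ρ) ∨
      LinearIndependent ℂ
        (fun (p : {p : Fin (d ^ 2) × Fin (d ^ 2) // p.1 < p.2 ∧ c p.1 = c p.2})
          (u v w z : EuclideanSpace ℂ (Fin d)) =>
          wedge u v (x p.1.1) (x p.1.2) * wedge (x p.1.1) (x p.1.2) w z)) :
    ∀ i j, i ≠ j → SICAngle (x i) (x j) := by
  have h1 : ∀ i, inner ℂ (x i) (x i) = 1 := by
    intro i
    rw [inner_self_eq_norm_sq_to_K, hx1]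
    simp
  have h2 : ∀ i j, c i ≠ c j →
      inner ℂ (x i) (x j) * inner ℂ (x j) (x i) = 1 / ((d : ℂ) + 1) := by
    intro i j hij
    rw [Pool.Agent.H103R3.inner_mul_inner_of (hx2 i j hij)]
    push_cast
    rfl
  have key : Pool.Agent.H103R3.Blocks.WInd x c →
      ∀ i j, i ≠ j → SICAngle (x i) (x j) := by
    intro hW i j hij
    have h3 := Pool.Agent.H103R3.Blocks.blocks hd (by simp) x c h1 h2 hW i j hij
    rw [← inner_conj_symm (x j) (x i), RCLike.mul_conj] at h3
    have h4 : ‖inner ℂ (x i) (x j)‖ ^ 2 = (1 / Real.sqrt ((d : ℝ) + 1)) ^ 2 := by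
      rw [div_pow, one_pow, Real.sq_sqrt (by positivity)]
      have h5 : ((‖inner ℂ (x i) (x j)‖ ^ 2 : ℝ) : ℂ) = ((1 / ((d : ℝ) + 1) : ℝ) : ℂ) := by
        push_cast
        exact h3
      exact Complex.ofReal_injective h5
    exact (pow_left_inj₀ (norm_nonneg _) (by positivity) (two_ne_zero)).mp h4
  rcases h with ⟨ρ, hρ, hn⟩ | h
  · exact key (Pool.Agent.H103R3.Blocks.kruskal x c ρ hρ (by rw [Fintype.card_fin]; exact hn))
  · refine key (Pool.Agent.H103R3.Blocks.wind_of_li x c ?_)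
    have e : (fun (p : {p : Fin (d ^ 2) × Fin (d ^ 2) // p.1 < p.2 ∧ c p.1 = c p.2})
          (u v w z : EuclideanSpace ℂ (Fin d)) =>
          wedge u v (x p.1.1) (x p.1.2) * wedge (x p.1.1) (x p.1.2) w z) =
        (fun (p : {p : Fin (d ^ 2) × Fin (d ^ 2) // p.1 < p.2 ∧ c p.1 = c p.2})
          (u v w z : EuclideanSpace ℂ (Fin d)) =>
          (inner ℂ u (x p.1.1) * inner ℂ v (x p.1.2) - inner ℂ v (x p.1.1) * inner ℂ u (x p.1.2)) *
          (inner ℂ (x p.1.1) w * inner ℂ (x p.1.2) z -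
            inner ℂ (x p.1.1) z * inner ℂ (x p.1.2) w)) := by
      funext p u v w z
      simp only [wedge]
      ring
    rw [← e]
    exact h

end Pool.Agent.Results.MP_d0f9e0_co.BlockRigidity
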