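import Mathlib
import Pool.Agent.H103R3.Completion

set_option autoImplicit false

namespace Pool.Agent.Results.MP_d0f9e0_co.CompletionGap

/-- Completion and gap theorem for maximal equiangular tight frames. Let `x_1, ..., x_N` be unit
vectors in `ℂ^d` with all pairwise inner products of modulus `1/√(d+1)`. If `N ≥ d² - 1 - √d`, then
`x` extends to a maximal ETF `y_1, ..., y_{d²}`; moreover the completion is unique: every unit vector
which makes the angle `1/√(d+1)` with all the `x_i` spans one of the lines of the new `y_j`. -/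
theorem result (d N : ℕ) (hd : 1 ≤ d) (x : Fin N → EuclideanSpace ℂ (Fin d))
    (hx1 : ∀ i, ‖x i‖ = 1)
    (hx2 : ∀ i j, i ≠ j → ‖inner ℂ (x i) (x j)‖ = 1 / Real.sqrt ((d : ℝ) + 1))
    (hN : (d : ℝ) ^ 2 - 1 - Real.sqrt d ≤ N) :
    ∃ (h : N ≤ d ^ 2) (y : Fin (d ^ 2) → EuclideanSpace ℂ (Fin d)),
      (∀ i, ‖y i‖ = 1) ∧
      (∀ i j, i ≠ j → ‖inner ℂ (y i) (y j)‖ = 1 / Real.sqrt ((d : ℝ) + 1)) ∧
      (∀ i : Fin N, y (Fin.castLE h i) = x i) ∧
      ∀ w : EuclideanSpace ℂ (Fin d), ‖w‖ = 1 →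
        (∀ i, ‖inner ℂ (x i) w‖ = 1 / Real.sqrt ((d : ℝ) + 1)) →
        ∃ j : Fin (d ^ 2), N ≤ (j : ℕ) ∧ ∃ c : ℂ, w = c • y j := by
  classical
  obtain ⟨m, y, hm, hy, hid⟩ := Pool.Agent.H103R3.completion hd x hx1 hx2 hN
  have hcard : Fintype.card (Fin N ⊕ Fin m) = d ^ 2 := by
    rw [Fintype.card_sum, Fintype.card_fin, Fintype.card_fin, hm]
  have hsic := Pool.Agent.H103R3.design_sic hd hcard (Sum.elim x y) hid
  have hle : N ≤ d ^ 2 := by omega
  let e : Fin (d ^ 2) ≃ Fin N ⊕ Fin m := (finCongr hm.symm).trans finSumFinEquiv.symm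
  refine ⟨hle, fun k => Sum.elim x y (e k), fun i => hsic.1 _,
    fun i j hij => hsic.2 _ _ (fun h => hij (e.injective h)), ?_, ?_⟩
  · intro i
    have h1 : e (Fin.castLE hle i) = Sum.inl i := by
      rw [← Equiv.eq_symm_apply]
      apply Fin.ext
      simp [e]
    show Sum.elim x y (e (Fin.castLE hle i)) = x i
    rw [h1, Sum.elim_inl]
  · intro w hw hwx
    obtain ⟨i, c, h⟩ := Pool.Agent.H103R3.uniqueness hd x y hy hsic.1 hid w hw hwx
    refine ⟨e.symm (Sum.inr i), ?_, c, ?_⟩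
    · simp [e]
    · show w = c • Sum.elim x y (e (e.symm (Sum.inr i)))
      rw [Equiv.apply_symm_apply, Sum.elim_inr]
      exact h

end Pool.Agent.Results.MP_d0f9e0_co.CompletionGap
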