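import Mathlib
import Pool.Agent.H103R3.FrameCrit

set_option autoImplicit false

namespace Pool.Agent.Results.MP_d0f9e0_co.FrameCriterion

/-- The family `e` consists of unit vectors of `ℂ^d` any two of which have an inner product of
modulus `1/√(d+1)`. For `d²` vectors this is a maximal ETF. -/
def SICAngled {d : ℕ} {κ : Type} (e : κ → EuclideanSpace ℂ (Fin d)) : Prop :=
  (∀ k, ‖e k‖ = 1) ∧ ∀ k l, k ≠ l → ‖inner ℂ (e k) (e l)‖ = 1 / Real.sqrt ((d : ℝ) + 1)

/-- The operator `d·I - ∑ x_i x_i^*`, which sends `u` to `d u - ∑ ⟨x_i, u⟩ x_i`. -/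
noncomputable def defect {d N : ℕ} (x : Fin N → EuclideanSpace ℂ (Fin d)) :
    EuclideanSpace ℂ (Fin d) →ₗ[ℂ] EuclideanSpace ℂ (Fin d) :=
  (d : ℂ) • LinearMap.id - ∑ i, (innerₛₗ ℂ (x i)).smulRight (x i)

theorem defect_eq {d N : ℕ} (x : Fin N → EuclideanSpace ℂ (Fin d)) :
    defect x = Pool.Agent.H103R3.Cop (d : ℝ) x := by
  ext1 u
  rw [Pool.Agent.H103R3.Cop_apply, Complex.ofReal_natCast]
  simp only [defect, LinearMap.sub_apply, LinearMap.smul_apply, LinearMap.id_apply,
    LinearMap.sum_apply]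
  rfl

/-- Frame operator criterion for completion to a maximal ETF.
* `ℂ^d` has a maximal ETF if and only if it has `d² - d` unit vectors with all pairwise inner
  products of modulus `1/√(d+1)` whose frame operator does not have the eigenvalue `d`.
Let moreover `x_1, ..., x_N` be unit vectors in `ℂ^d` with all pairwise inner products of modulus
`1/√(d+1)`.
* The rank of `d·I - ∑ x_i x_i^*` is at most `d² - N`.
* Equality holds if and only if `x` extends to a maximal ETF by linearly independent vectors.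
* Let `x, y_1, ..., y_m` be a maximal ETF such that any at most `ρ` of the `y_j` are linearly
  independent, where `m ≤ ρ` or `m ≤ 2ρ - 2`. Then every unit vector which makes the angle
  `1/√(d+1)` with all the `x_i` spans the line of one of the `y_j`. -/
theorem result (d : ℕ) (hd : 1 ≤ d) :
    ((∃ e : Fin (d ^ 2) → EuclideanSpace ℂ (Fin d), SICAngled e) ↔
      ∃ x : Fin (d ^ 2 - d) → EuclideanSpace ℂ (Fin d), SICAngled x ∧
        LinearMap.ker (defect x) = ⊥) ∧
    ∀ (N : ℕ) (x : Fin N → EuclideanSpace ℂ (Fin d)), SICAngled x →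
      Module.finrank ℂ (LinearMap.range (defect x)) + N ≤ d ^ 2 ∧
      (Module.finrank ℂ (LinearMap.range (defect x)) + N = d ^ 2 ↔
        ∃ (m : ℕ) (y : Fin m → EuclideanSpace ℂ (Fin d)), N + m = d ^ 2 ∧
          LinearIndependent ℂ y ∧ SICAngled (Sum.elim x y)) ∧
      ∀ (m ρ : ℕ) (y : Fin m → EuclideanSpace ℂ (Fin d)), N + m = d ^ 2 →
        SICAngled (Sum.elim x y) →
        (∀ S : Finset (Fin m), S.card ≤ ρ → LinearIndependent ℂ (fun i : S => y i)) →
        (m ≤ ρ ∨ m + 2 ≤ 2 * ρ) →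
        ∀ w : EuclideanSpace ℂ (Fin d), ‖w‖ = 1 →
          (∀ i, ‖inner ℂ (x i) w‖ = 1 / Real.sqrt ((d : ℝ) + 1)) →
          ∃ (j : Fin m) (c : ℂ), w = c • y j := by
  refine ⟨?_, fun N x hx => ?_⟩
  · simp only [defect_eq]
    exact Pool.Agent.H103R3.FrameCrit.reduced hd
  obtain ⟨h1, h2⟩ := Pool.Agent.H103R3.FrameCrit.core hd x hx.1 hx.2
  rw [defect_eq]
  refine ⟨h1, ⟨fun h => ?_, ?_⟩, ?_⟩
  · obtain ⟨m, y, hm, hy, hid⟩ := h2 h
    have hcard : Fintype.card (Fin N ⊕ Fin m) = d ^ 2 := by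
      rw [Fintype.card_sum, Fintype.card_fin, Fintype.card_fin, hm]
    exact ⟨m, y, hm, hy, Pool.Agent.H103R3.design_sic hd hcard (Sum.elim x y) hid⟩
  · rintro ⟨m, y, hm, hy, hs⟩
    rw [Pool.Agent.H103R3.FrameCrit.rank_of_completion hd x y hm hy hs.1 hs.2]
    omega
  · intro m ρ y hm hs hρ hmρ w hw hwx
    exact Pool.Agent.H103R3.FrameCrit.unique_completion hd x y hm hs.1 hs.2 ρ hρ hmρ w hw hwx

end Pool.Agent.Results.MP_d0f9e0_co.FrameCriterion
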